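import Pool.Agent.H27.Wnc2

set_option autoImplicit false

namespace Pool.Agent.Results.MP_ca490d_an.NotEquiv

open Filter Topology Set Pool.Agent.H27.Wnc
open scoped ENNReal NNReal unitInterval

/-- plateau bumps with disjoint supports -/
noncomputable def b (n : ℕ) : C(I, ℝ) :=
  ⟨fun x => max 0 (min 1 (min (3 * (2 ^ (n + 1) * (x : ℝ) - 1)) (3 * (2 - 2 ^ (n + 1) * (x : ℝ))))),
    by fun_prop⟩

noncomputable def tau (n : ℕ) : C(I, I) :=
  ⟨fun x => projIcc 0 1 zero_le_one (3 * (2 ^ (n + 1) * (x : ℝ)) - 4),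
    continuous_projIcc.comp (by fun_prop)⟩

noncomputable def sig (n : ℕ) (y : I) : I :=
  ⟨(4 + y) / 3 / 2 ^ (n + 1), by
    have h0 := y.2.1
    have h1 := y.2.2
    have h2 : (2 : ℝ) ≤ 2 ^ (n + 1) := le_self_pow₀ one_le_two (by omega)
    refine ⟨by positivity, ?_⟩
    rw [div_le_one (by positivity)]
    linarith⟩

theorem sig_val (n : ℕ) (y : I) : 2 ^ (n + 1) * (sig n y : ℝ) = (4 + y) / 3 := by
  show 2 ^ (n + 1) * ((4 + (y : ℝ)) / 3 / 2 ^ (n + 1)) = _
  field_simp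

theorem tau_sig (n : ℕ) (y : I) : tau n (sig n y) = y := by
  show projIcc 0 1 zero_le_one (3 * (2 ^ (n + 1) * (sig n y : ℝ)) - 4) = y
  rw [sig_val, show 3 * ((4 + (y : ℝ)) / 3) - 4 = y by ring, projIcc_val]

theorem b_sig (n : ℕ) (y : I) : b n (sig n y) = 1 := by
  show max 0 (min 1 (min (3 * (2 ^ (n + 1) * (sig n y : ℝ) - 1))
    (3 * (2 - 2 ^ (n + 1) * (sig n y : ℝ))))) = 1
  have h0 := y.2.1
  have h1 := y.2.2
  rw [sig_val, min_eq_left (le_min (by linarith) (by linarith)), max_eq_right zero_le_one]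

theorem b_le (n : ℕ) (x : I) : |b n x| ≤ 1 :=
  abs_le.2 ⟨le_trans (by norm_num) (le_max_left _ _), max_le zero_le_one (min_le_left _ _)⟩

theorem b_ne {n : ℕ} {x : I} (h : b n x ≠ 0) :
    1 < 2 ^ (n + 1) * (x : ℝ) ∧ 2 ^ (n + 1) * (x : ℝ) < 2 := by
  have h1 : 0 < min 1 (min (3 * (2 ^ (n + 1) * (x : ℝ) - 1)) (3 * (2 - 2 ^ (n + 1) * (x : ℝ)))) := by
    by_contra h2
    exact h (max_eq_left (not_lt.1 h2))
  have h2 := lt_min_iff.1 (lt_min_iff.1 h1).2
  constructor <;> linarith [h2.1, h2.2]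

theorem b_lt {m n : ℕ} {x : I} (hm : b m x ≠ 0) (hn : b n x ≠ 0) : ¬ m < n := by
  intro h
  have h1 := (b_ne hm).1
  have h2 := (b_ne hn).2
  have h3 : (2 : ℝ) ^ (m + 1 + 1) ≤ 2 ^ (n + 1) := pow_le_pow_right₀ one_le_two (by omega)
  have h4 := mul_le_mul_of_nonneg_right h3 x.2.1
  rw [pow_succ] at h4
  linarith

noncomputable def R : ∀ i : ℕ, (Fin i → ℕ) → C(I, ℝ)
  | 0, _ => 1
  | i + 1, s => b (s 0) * (R i (Fin.tail s)).comp (tau (s 0))

theorem R_le : ∀ (i : ℕ) (s : Fin i → ℕ) (x : I), |R i s x| ≤ 1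
  | 0, _, _ => by simp [R]
  | i + 1, s, x => by
    show |b (s 0) x * R i (Fin.tail s) (tau (s 0) x)| ≤ 1
    rw [abs_mul]
    exact mul_le_one₀ (b_le _ _) (abs_nonneg _) (R_le i _ _)

theorem R_uniq : ∀ (i : ℕ) (s s' : Fin i → ℕ) (x : I), R i s x ≠ 0 → R i s' x ≠ 0 → s = s'
  | 0, _, _, _, _, _ => Subsingleton.elim _ _
  | i + 1, s, s', x, h, h' => by
    have e : b (s 0) x * R i (Fin.tail s) (tau (s 0) x) ≠ 0 := h
    have e' : b (s' 0) x * R i (Fin.tail s') (tau (s' 0) x) ≠ 0 := h'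
    have h0 : s 0 = s' 0 := le_antisymm
      (not_lt.1 (b_lt (left_ne_zero_of_mul e') (left_ne_zero_of_mul e)))
      (not_lt.1 (b_lt (left_ne_zero_of_mul e) (left_ne_zero_of_mul e')))
    rw [← h0] at e'
    have h1 := R_uniq i _ _ _ (right_ne_zero_of_mul e) (right_ne_zero_of_mul e')
    rw [← Fin.cons_self_tail s, ← Fin.cons_self_tail s', h0, h1]

theorem R_pt : ∀ (N : ℕ) (t : ℕ → ℕ), ∃ x : I, ∀ i ≤ N, R i (fun j : Fin i => t j) x = 1
  | 0, _ => ⟨0, fun i hi => by obtain rfl := Nat.le_zero.1 hi; simp [R]⟩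
  | N + 1, t => by
    obtain ⟨y, hy⟩ := R_pt N fun j => t (j + 1)
    refine ⟨sig (t 0) y, fun i hi => ?_⟩
    cases i with
    | zero => simp [R]
    | succ i =>
      show b (t 0) (sig (t 0) y) * R i (fun j : Fin i => t (j + 1)) (tau (t 0) (sig (t 0) y)) = 1
      rw [b_sig, tau_sig, hy i (by omega), one_mul]

noncomputable def P (i : ℕ) (s : Fin i → ℕ) : C(I, ℂ) :=
  ⟨fun x => (R i s x : ℂ), Complex.continuous_ofReal.comp (R i s).continuous⟩

/-- On bounded subsets of `C[0,1]` the De Blasi measure is not dominated by a multiple of `wk`. -/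
theorem result (c : ℝ≥0) : ∃ A : Set C(I, ℂ), Bornology.IsBounded A ∧ A.Nonempty ∧
    (c : ℝ≥0∞) * wk A < omega A := by
  classical
  refine main (P := P) (fun i F => ?_) (fun N t => ?_) c
  · refine (ContinuousMap.norm_le _ zero_le_one).2 fun x => ?_
    rw [ContinuousMap.sum_apply]
    by_cases h : ∃ s ∈ F, R i s x ≠ 0
    · obtain ⟨s, hs, h⟩ := h
      rw [Finset.sum_eq_single s (fun s' _ h' => ?_) fun h' => absurd hs h']
      · show ‖(R i s x : ℂ)‖ ≤ 1
        rw [Complex.norm_real]; exact R_le i s x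
      · show (R i s' x : ℂ) = 0
        rw [not_not.1 fun h2 => h' (R_uniq i s' s x h2 h), Complex.ofReal_zero]
    · rw [Finset.sum_eq_zero fun s hs => ?_, norm_zero]
      · exact zero_le_one
      · show (R i s x : ℂ) = 0
        rw [not_not.1 fun h2 => h ⟨s, hs, h2⟩, Complex.ofReal_zero]
  · obtain ⟨x, hx⟩ := R_pt N t
    refine ⟨ContinuousMap.evalCLM ℂ x, ?_, fun i hi s => ?_⟩
    · exact ContinuousLinearMap.opNorm_le_bound _ zero_le_one fun f => by
        rw [one_mul]; exact f.norm_coe_le_norm x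
    · show (R i s x : ℂ) = _
      split_ifs with h
      · rw [h, hx i hi, Complex.ofReal_one]
      · rw [not_not.1 fun h2 => h (R_uniq i s _ x h2 (by rw [hx i hi]; exact one_ne_zero)),
          Complex.ofReal_zero]

end Pool.Agent.Results.MP_ca490d_an.NotEquiv
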